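import Mathlib
import Pool.Agent.Y403.TP.Main

/-!
# Monochromatic transfinite paths for every infinite number of colours (MP_ebc4cb_lc)

For an infinite cardinal `μ` let `ℙ_μ` be the class of infinite cardinals `κ` such that every
colouring of the edges of the complete graph on `κ` vertices with `μ` colours has a monochromatic
(transfinite) path of size `κ`; so `ℙ_{ℵ₀}` is the class `ℙ` of the problem.
-/

namespace Pool.Agent.Results.MP_ebc4cb_lc.EveryNumberOfColours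

open Cardinal Ordinal Set Pool.H38R3.TransPath Pool.Agent.TH770.PP Pool.Agent.Y403.TP

universe u

/-- * `ℙ_{ℵ₀}` is the class `ℙ` of the problem.
* For every infinite `μ` all elements of `ℙ_μ` have cofinality at least `μ⁺⁺`, and a singular
  strong limit cardinal is in `ℙ_μ` if and only if its cofinality is at least `μ⁺⁺`; so `ℙ_μ` is
  not empty.
* If `α` is smaller than the first fixed point of the aleph function then `ℵ_{ω_{α+2}}` is the
  least singular element of `ℙ_{ℵ_α}`.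
* For every `α` every element `κ < ℵ_{ω_{α+2}}` of `ℙ_{ℵ_α}` is at least `ℵ_{ω_{α+1}+1}`, is the
  successor of a singular cardinal of cofinality `ℵ_{α+1}`, and is a cardinal all of whose
  stationary subsets reflect; moreover for every sequence of pairwise disjoint stationary subsets
  of `κ` and every nonprincipal ultrafilter `𝒰` on `ℕ` there is a point at which `𝒰`-many members
  of the sequence reflect simultaneously. -/
theorem result :
    PathCards.{u} ℵ₀ = PathCardinals.{u} ∧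
    (∀ μ : Cardinal.{u}, ℵ₀ ≤ μ →
      (∀ κ ∈ PathCards μ, Order.succ (Order.succ μ) ≤ κ.ord.cof) ∧
      (∀ κ : Cardinal.{u}, κ.IsStrongLimit → κ.IsSingular →
        (κ ∈ PathCards μ ↔ Order.succ (Order.succ μ) ≤ κ.ord.cof)) ∧
      ∀ ν : Cardinal.{u}, ∃ κ ∈ PathCards μ, ν < κ) ∧
    (∀ α : Ordinal.{u}, (∀ δ ≤ α, δ < ω_ δ) →
      ℵ_ (ω_ (α + 2)) ∈ PathCards.{u} (ℵ_ α) ∧ (ℵ_ (ω_ (α + 2)) : Cardinal.{u}).IsSingular ∧
      ∀ κ ∈ PathCards.{u} (ℵ_ α), κ.IsSingular → ℵ_ (ω_ (α + 2)) ≤ κ) ∧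
    (∀ α : Ordinal.{u}, ∀ κ ∈ PathCards.{u} (ℵ_ α), κ < ℵ_ (ω_ (α + 2)) →
      ℵ_ (ω_ (α + 1) + 1) ≤ κ ∧
      (∃ μ : Cardinal.{u}, κ = Order.succ μ ∧ ℵ_ (α + 1) < μ ∧ μ.ord.cof = ℵ_ (α + 1)) ∧
      (∀ S : Set κ.ord.ToType, IsStationary S →
        ∃ δ : κ.ord.ToType, ℵ₀ < Order.cof (Iio δ) ∧
          IsStationary ((Subtype.val : Iio δ → κ.ord.ToType) ⁻¹' S)) ∧
      (∀ T : ℕ → Set κ.ord.ToType, (∀ n, IsStationary (T n)) →
        (∀ m n, m ≠ n → Disjoint (T m) (T n)) →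
        ∀ 𝒰 : Ultrafilter ℕ, (𝒰 : Filter ℕ) ≤ Filter.cofinite →
          ∃ δ : κ.ord.ToType, ℵ₀ < Order.cof (Iio δ) ∧
            {n | IsStationary ((Subtype.val : Iio δ → κ.ord.ToType) ⁻¹' (T n))} ∈ 𝒰)) := by
  refine ⟨pathCards_aleph0, ?_, ?_, ?_⟩
  · intro μ hμ
    have hiff : ∀ κ : Cardinal.{u}, κ.IsStrongLimit → κ.IsSingular →
        (κ ∈ PathCards μ ↔ Order.succ (Order.succ μ) ≤ κ.ord.cof) := fun κ h1 h2 =>
      ⟨succ_succ_le_cof hμ, mem_of_strongLimit' hμ h1 h2.cof_ord_lt⟩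
    refine ⟨fun κ => succ_succ_le_cof hμ, hiff, fun ν => ?_⟩
    exact exists_mem_gt hμ ν
  · intro α hα
    refine ⟨aleph_omega_mem hα, isSingular_aleph_omega α, ?_⟩
    · intro κ hκ hs
      by_contra hlt
      obtain ⟨-, μ, rfl, h2, -⟩ := below hκ (not_le.mp hlt)
      exact hs.not_isRegular (isRegular_succ ((Cardinal.aleph0_le_aleph _).trans h2.le))
  · intro α κ hκ hlt
    have h0 : κ ∈ PathCardinals.{u} := PathCards.countable (Cardinal.aleph0_le_aleph α) hκ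
    obtain ⟨h1, μ, rfl, h2, h3⟩ := below hκ hlt
    have hμ : ℵ₀ ≤ μ := (Cardinal.aleph0_le_aleph _).trans h2.le
    exact ⟨h1, ⟨μ, rfl, h2, h3⟩, (succ_mem hμ h0).2.2,
      fun T hT hd 𝒰 h𝒰 => regular_mem h0 (isRegular_succ hμ) T hT hd 𝒰 h𝒰⟩

end Pool.Agent.Results.MP_ebc4cb_lc.EveryNumberOfColours
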